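import Pool.Agent.Helper49.RU.St

set_option autoImplicit false

namespace Pool.Agent.Helper7.RU

open Pool.Agent.Helper49.RU
open MeasureTheory Filter Topology Complex
open scoped ENNReal Cardinal ComplexConjugate

private lemma sum_le_one (w : H) (hw : ‖w‖ ≤ 1) (F : Finset ℕ) : ∑ a ∈ F, ‖w a‖ ^ 2 ≤ 1 := by
  have h := lp.sum_rpow_le_norm_rpow (p := 2) (by norm_num) w F
  have e : (2 : ℝ≥0∞).toReal = 2 := by norm_num
  rw [e] at h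
  have h1 : ∑ a ∈ F, ‖w a‖ ^ 2 = ∑ a ∈ F, ‖w a‖ ^ (2 : ℝ) :=
    Finset.sum_congr rfl fun a _ => (Real.rpow_two _).symm
  rw [h1]
  refine h.trans ?_
  rw [Real.rpow_two]
  have := norm_nonneg w
  nlinarith

theorem hSUP (hHLF : StHLF) (hTSA : StTSA) : StSUP := by
  intro X hX w δ hw hδ
  set A : Set ℝ := {s | ∃ (F : Finset ℕ) (Y : Set Code), Y ⊆ X ∧ Cond Y ∧
    ∀ c ∈ Y, ∀ g ∈ c.2, s ≤ ∑ a ∈ F, ‖(w ⟨c.1, g⟩) a‖ ^ 2} with hA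
  have h0 : (0 : ℝ) ∈ A := ⟨∅, X, subset_rfl, hX, fun c _ g _ => by simp⟩
  have hb : BddAbove A := by
    refine ⟨1, ?_⟩
    rintro s ⟨F, Y, -, hY, hs⟩
    obtain ⟨k, -, Z, hZ, hbig⟩ := hY.2 0
    obtain ⟨g, hg⟩ := hHLF.2.1 0 k Z hbig
    exact (hs ⟨k, Z⟩ hZ g hg).trans (sum_le_one _ (hw _) F)
  obtain ⟨s, hsA, hs⟩ := exists_lt_of_lt_csSup ⟨0, h0⟩ (show sSup A - δ < sSup A by linarith)
  obtain ⟨F0, Y, hYX, hY, hsY⟩ := hsA
  refine ⟨Y, hYX, hY, F0.sup id + 1, fun F hF n => ?_⟩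
  obtain ⟨Y', hY'Y, hY', hcase⟩ := hTSA Y hY {i : Idx | ∑ a ∈ F, ‖(w i) a‖ ^ 2 ≤ δ}
  rcases hcase with hin | hout
  · obtain ⟨k, hk, Z, hZ, hbig⟩ := hY'.2 n
    exact ⟨k, hk, Z, hY'Y hZ, hbig, fun g hg => hin ⟨k, Z⟩ hZ g hg⟩
  · exfalso
    have hdis : Disjoint F0 F := by
      rw [Finset.disjoint_left]
      intro a ha haF
      have h1 : a ≤ F0.sup id := Finset.le_sup (f := id) ha
      have h2 := hF a haF
      omega
    have hmem : s + δ ∈ A := by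
      refine ⟨F0 ∪ F, Y', hY'Y.trans hYX, hY', fun c hc g hg => ?_⟩
      rw [Finset.sum_union hdis]
      have h1 := hsY c (hY'Y hc) g hg
      have h2 : ¬ (∑ a ∈ F, ‖(w ⟨c.1, g⟩) a‖ ^ 2 ≤ δ) := hout c hc g hg
      linarith [not_le.1 h2]
    have := le_csSup hb hmem
    linarith

end Pool.Agent.Helper7.RU
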